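import Pool.Agent.J4H69.K1.Stm
import Mathlib.Analysis.Calculus.InverseFunctionTheorem.Analytic
import Mathlib.Topology.MetricSpace.Perfect

set_option autoImplicit false

/-!
# Project K1 of helper69, job LOC (helper45)
-/

namespace Pool.Agent.J4H45.K1

open Filter Topology Set Metric
open Pool.Agent.J4H69.AX (HasDisc HasPiece)
open Pool.Agent.J4H69.K1 (Good Loc S_LOC)

/-- an analytic graph over the coordinate `i` in `T` through `p` -/
def G {n : ℕ} (T : Set (Fin n → ℂ)) (i : Fin n) (p : Fin n → ℂ) : Prop :=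
  ∃ Φ : ℂ → (Fin n → ℂ), AnalyticAt ℂ Φ (p i) ∧ Φ (p i) = p ∧ ∀ᶠ s in 𝓝 (p i), Φ s i = s ∧ Φ s ∈ T

lemma G.mem {n : ℕ} {T : Set (Fin n → ℂ)} {i : Fin n} {p : Fin n → ℂ} (h : G T i p) : p ∈ T := by
  obtain ⟨Φ, h1, h2, h3⟩ := h
  have := h3.self_of_nhds.2
  rwa [h2] at this

lemma G.spread {n : ℕ} {T : Set (Fin n → ℂ)} {i : Fin n} {p : Fin n → ℂ} (h : G T i p) :
    ∃ Φ : ℂ → (Fin n → ℂ), Φ (p i) = p ∧ AnalyticAt ℂ Φ (p i) ∧
      ∀ᶠ s in 𝓝 (p i), AnalyticAt ℂ Φ s ∧ Φ s i = s ∧ Φ s ∈ T ∧ G T i (Φ s) := by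
  obtain ⟨Φ, h1, h2, h3⟩ := h
  refine ⟨Φ, h2, h1, ?_⟩
  filter_upwards [h1.eventually_analyticAt, h3, eventually_eventually_nhds.2 h3] with s a b c
  refine ⟨a, b.1, b.2, Φ, ?_, ?_, ?_⟩
  · rw [b.1]; exact a
  · rw [b.1]
  · rw [b.1]; exact c

/-- several graphs at once -/
lemma spreads {n : ℕ} {T : Set (Fin n → ℂ)} {i : Fin n} {N : ℕ} {c : ℂ} (p : Fin N → (Fin n → ℂ))
    (hp : Function.Injective p) (hc : ∀ k, p k i = c) (hG : ∀ k, G T i (p k)) :
    ∃ Φ : Fin N → ℂ → (Fin n → ℂ), ∀ᶠ s in 𝓝 c,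
      (∀ k, AnalyticAt ℂ (Φ k) s ∧ Φ k s i = s ∧ Φ k s ∈ T ∧ G T i (Φ k s)) ∧
        Function.Injective fun k => Φ k s := by
  choose Φ h1 h2 h3 using fun k => (hG k).spread
  refine ⟨Φ, ?_⟩
  have e1 : ∀ᶠ s in 𝓝 c, ∀ k, AnalyticAt ℂ (Φ k) s ∧ Φ k s i = s ∧ Φ k s ∈ T ∧ G T i (Φ k s) := by
    rw [eventually_all]
    intro k
    have := h3 k
    rwa [hc k] at this
  have e2 : ∀ᶠ s in 𝓝 c, ∀ k l : Fin N, k ≠ l → Φ k s ≠ Φ l s := by
    rw [eventually_all]
    intro k
    rw [eventually_all]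
    intro l
    by_cases hkl : k = l
    · exact Eventually.of_forall fun s h => absurd hkl h
    have ck : ContinuousAt (Φ k) c := by
      have := (h2 k).continuousAt
      rwa [hc k] at this
    have cl : ContinuousAt (Φ l) c := by
      have := (h2 l).continuousAt
      rwa [hc l] at this
    have hne : Φ k c ≠ Φ l c := by
      intro h
      have a := h1 k
      have b := h1 l
      rw [hc k] at a
      rw [hc l] at b
      exact hkl (hp (by rw [← a, ← b, h]))
    filter_upwards [(ck.ne_iff_eventually_ne cl).1 hne] with s hs _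
    exact hs
  filter_upwards [e1, e2] with s a b
  refine ⟨a, fun k l h => ?_⟩
  by_contra hkl
  exact b k l hkl h

/-- a piece gives graph points nearby, or an accumulation point of the fibre -/
lemma F1 {n : ℕ} {T : Set (Fin n → ℂ)} {i : Fin n} {p : Fin n → ℂ} (h : HasPiece 0 T p)
    (hacc : ¬ AccPt p (𝓟 {z ∈ T | z i = p i})) {W : Set (Fin n → ℂ)} (hW : W ∈ 𝓝 p) :
    ∃ q ∈ W, G T i q := by
  obtain ⟨φ, h1, h2, h3, h4⟩ := h
  let L : ℂ →L[ℂ] (Fin (0 + 1) → ℂ) := ContinuousLinearMap.pi fun _ => ContinuousLinearMap.id ℂ ℂ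
  have L0 : L 0 = 0 := by simp
  let ψ : ℂ → (Fin n → ℂ) := fun t => φ (L t)
  have hψa : AnalyticAt ℂ ψ 0 := by
    have : AnalyticAt ℂ φ (L 0) := by rw [L0]; exact h1
    exact this.comp (L.analyticAt 0)
  have hψ0 : ψ 0 = p := by simp only [ψ]; rw [L0, h2]
  have hψT : ∀ᶠ t in 𝓝 (0 : ℂ), ψ t ∈ T := by
    have : Tendsto L (𝓝 0) (𝓝 0) := by
      have := L.continuous.tendsto 0
      rwa [L0] at this
    exact this.eventually h4
  have hder : HasDerivAt ψ (fderiv ℂ φ 0 (L 1)) 0 := by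
    have a : HasFDerivAt φ (fderiv ℂ φ 0) (L 0) := by
      rw [L0]; exact h1.differentiableAt.hasFDerivAt
    have b : HasDerivAt (fun t => L t) (L 1) 0 := L.hasDerivAt
    exact a.comp_hasDerivAt 0 b
  have hne : fderiv ℂ φ 0 (L 1) ≠ 0 := by
    intro h
    have : L 1 = 0 := h3 (by rw [h, map_zero])
    have := congrFun this 0
    simp [L] at this
  have hev : ∀ᶠ t in 𝓝[≠] (0 : ℂ), ψ t ≠ p := by
    have := hder.eventually_ne (c := p) hne
    exact this
  let g : ℂ → ℂ := fun t => ψ t i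
  have hg : AnalyticAt ℂ g 0 :=
    ((ContinuousLinearMap.proj (R := ℂ) (φ := fun _ : Fin n => ℂ) i).analyticAt (ψ 0)).comp hψa
  rcases hg.deriv.eventually_eq_zero_or_eventually_ne_zero with hz | hz
  · exfalso
    have : ∀ᶠ t in 𝓝 (0 : ℂ), g t = g 0 := by
      obtain ⟨r, hr, hb⟩ := Metric.eventually_nhds_iff_ball.1 (hz.and hg.eventually_analyticAt)
      filter_upwards [Metric.ball_mem_nhds (0 : ℂ) hr] with t ht
      exact isOpen_ball.is_const_of_deriv_eq_zero (convex_ball (0 : ℂ) r).isPreconnected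
        (fun x hx => (hb x hx).2.differentiableAt.differentiableWithinAt)
        (fun x hx => (hb x hx).1) ht (Metric.mem_ball_self hr)
    apply hacc
    rw [accPt_iff_frequently]
    have ht : Tendsto ψ (𝓝[≠] 0) (𝓝 p) := by
      have := hψa.continuousAt.tendsto
      rw [hψ0] at this
      exact this.mono_left nhdsWithin_le_nhds
    refine ht.frequently (Eventually.frequently ?_)
    filter_upwards [hev, nhdsWithin_le_nhds hψT, nhdsWithin_le_nhds this] with t a b c
    refine ⟨a, b, ?_⟩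
    have : g 0 = p i := by simp only [g]; rw [hψ0]
    rw [← this]
    exact c
  · have hW' : ∀ᶠ t in 𝓝 (0 : ℂ), ψ t ∈ W := by
      have := hψa.continuousAt
      rw [← hψ0] at hW
      exact this.eventually hW
    have := hz.and (nhdsWithin_le_nhds (hW'.and (hg.eventually_analyticAt.and
      (hψa.eventually_analyticAt.and (eventually_eventually_nhds.2 hψT)))))
    obtain ⟨t, a, b, c, d, e⟩ := this.exists
    refine ⟨ψ t, b, ?_⟩
    let r := c.hasStrictDerivAt.localInverse _ _ _ a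
    have hra : AnalyticAt ℂ r (g t) := c.analyticAt_localInverse a
    have hrt : r (g t) = t := HasStrictFDerivAt.localInverse_apply_image ..
    have hri : ∀ᶠ x in 𝓝 (g t), g (r x) = x := HasStrictDerivAt.eventually_right_inverse ..
    refine ⟨fun s => ψ (r s), ?_, ?_, ?_⟩
    · change AnalyticAt ℂ (fun s => ψ (r s)) (g t)
      have : AnalyticAt ℂ ψ (r (g t)) := by rw [hrt]; exact d
      exact this.comp hra
    · change ψ (r (g t)) = ψ t
      rw [hrt]
    · change ∀ᶠ s in 𝓝 (g t), _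
      have : ∀ᶠ s in 𝓝 (g t), ψ (r s) ∈ T := by
        have h5 := hra.continuousAt
        rw [← hrt] at e
        exact h5.eventually e
      filter_upwards [this, hri] with s a b
      exact ⟨b, a⟩

/-- `T` is uncountable near each of its points -/
lemma unc {n : ℕ} {T : Set (Fin n → ℂ)} (hT : Good T) {z : Fin n → ℂ} (hz : z ∈ T)
    {W : Set (Fin n → ℂ)} (hW : W ∈ 𝓝 z) : ∃ q ∈ W, q ∈ T ∧ HasPiece 0 T q := by
  obtain ⟨hc, hp, B, hB, hd⟩ := hT
  have perf : Perfect T := by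
    refine ⟨hc, fun x hx => ?_⟩
    rw [accPt_principal_iff_clusterPt]
    exact mem_closure_iff_clusterPt.1 (hp x hx)
  obtain ⟨K, hK, hKc, hKW⟩ := exists_mem_nhds_isClosed_subset hW
  have h1 := perf.closure_nhds_inter z hz (mem_interior_iff_mem_nhds.2 hK) isOpen_interior
  obtain ⟨f, hf, -, hfi⟩ := h1.1.exists_nat_bool_injection h1.2
  by_contra hcon
  push Not at hcon
  have hsub : range f ⊆ B := by
    refine hf.trans ?_
    intro q hq
    by_contra hqB
    have q1 : q ∈ K := by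
      have := closure_mono (inter_subset_left.trans interior_subset) hq
      rwa [hKc.closure_eq] at this
    have q2 : q ∈ T := by
      have := closure_mono inter_subset_right hq
      rwa [hc.closure_eq] at this
    exact hcon q (hKW q1) q2 (hd q q2 hqB)
  have h2 : (range f).Countable := hB.mono hsub
  have h3 : Countable (ℕ → Bool) := by
    have : Countable (range f) := h2.to_subtype
    exact (hfi.codRestrict (s := range f) mem_range_self).countable
  have h4 : Function.Injective fun s : Set ℕ => (fun k => @decide (k ∈ s) (Classical.dec _) : ℕ → Bool) := by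
    intro s t h
    ext k
    have := congrFun h k
    simpa using this
  have h5 : Countable (Set ℕ) := h4.countable
  obtain ⟨e, he⟩ := h5.exists_injective_nat
  exact Function.cantor_injective e he

/-- near each point of `T` over `U` there are graph points -/
lemma F2 {n : ℕ} {T : Set (Fin n → ℂ)} {i : Fin n} {U : Set ℂ} (hT : Good T) (hU : IsOpen U)
    (hacc : ∀ c ∈ U, ∀ x, ¬ AccPt x (𝓟 {z ∈ T | z i = c})) {z : Fin n → ℂ} (hz : z ∈ T)
    (hzU : z i ∈ U) {W : Set (Fin n → ℂ)} (hW : W ∈ 𝓝 z) : ∃ q ∈ W, G T i q := by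
  have h1 : interior W ∩ {q | q i ∈ U} ∈ 𝓝 z :=
    inter_mem (interior_mem_nhds.2 hW) ((hU.preimage (continuous_apply i)).mem_nhds hzU)
  obtain ⟨q, hq, hqT, hqp⟩ := unc hT hz h1
  exact F1 hqp (hacc (q i) hq.2 q) (mem_interior_iff_mem_nhds.1 hq.1)

theorem t_LOC : S_LOC := by
  intro n T i U hT hU hUne hacc C₁ hC₁ hfin
  let S : ℕ → Set ℂ := fun N => {c | ∃ p : Fin N → (Fin n → ℂ), Function.Injective p ∧
    ∀ k, p k i = c ∧ G T i (p k)}
  have hS : ∀ N, IsOpen (S N) := by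
    intro N
    rw [isOpen_iff_mem_nhds]
    rintro c ⟨p, hp, h⟩
    obtain ⟨Φ, hΦ⟩ := spreads p hp (fun k => (h k).1) (fun k => (h k).2)
    filter_upwards [hΦ] with s hs
    exact ⟨fun k => Φ k s, hs.2, fun k => ⟨(hs.1 k).2.1, (hs.1 k).2.2.2⟩⟩
  have hex : ∃ N : ℕ, ∃ V : Set ℂ, IsOpen V ∧ V.Nonempty ∧ V ⊆ U ∧ V ∩ S N = ∅ := by
    by_contra hcon
    push Not at hcon
    have hD1 : ∀ N, IsOpen (S N ∪ (closure U)ᶜ) := fun N => (hS N).union isClosed_closure.isOpen_compl
    have hD2 : ∀ N, Dense (S N ∪ (closure U)ᶜ) := by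
      intro N
      rw [dense_iff_inter_open]
      intro O hO hOne
      by_cases h : (O ∩ U).Nonempty
      · obtain ⟨x, hx⟩ := hcon N (O ∩ U) (hO.inter hU) h inter_subset_right
        exact ⟨x, hx.1.1, Or.inl hx.2⟩
      · obtain ⟨x, hx⟩ := hOne
        refine ⟨x, hx, Or.inr fun hxc => h ?_⟩
        exact mem_closure_iff.1 hxc O hO hx
    have hd := dense_iInter_of_isOpen_nat hD1 hD2
    have hgd : IsGδ (⋂ N, (S N ∪ (closure U)ᶜ)) := IsGδ.iInter fun N => (hD1 N).isGδ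
    have hdd := hd.inter_of_Gδ hgd hC₁.isGδ_compl (hC₁.dense_compl ℝ)
    obtain ⟨c, hcU, hc1, hc2⟩ := hdd.inter_open_nonempty U hU hUne
    have hf := hfin c hcU hc2
    have hcN : c ∈ S (hf.toFinset.card + 1) := by
      rcases mem_iInter.1 hc1 (hf.toFinset.card + 1) with h | h
      · exact h
      · exact absurd (subset_closure hcU) h
    obtain ⟨p, hp, h⟩ := hcN
    have : Fintype.card (Fin (hf.toFinset.card + 1)) ≤ hf.toFinset.card := by
      rw [← Finset.card_univ]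
      apply Finset.card_le_card_of_injOn p
      · intro k _
        simp only [Finset.mem_coe, Set.Finite.mem_toFinset]
        exact ⟨(h k).2.mem, (h k).1⟩
      · exact hp.injOn
    simp at this
  classical
  obtain ⟨V, hVo, hVne, hVU, hVS⟩ := Nat.find_spec hex
  have hN0 : Nat.find hex ≠ 0 := by
    intro h0
    rw [h0] at hVS
    obtain ⟨x, hx⟩ := hVne
    have : x ∈ V ∩ S 0 := ⟨hx, Fin.elim0, fun a => Fin.elim0 a, fun a => Fin.elim0 a⟩
    rw [hVS] at this
    exact this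
  obtain ⟨M, hM⟩ := Nat.exists_eq_succ_of_ne_zero hN0
  have hmin := Nat.find_min hex (m := M) (by omega)
  have hne : (V ∩ S M).Nonempty := by
    by_contra h
    exact hmin ⟨V, hVo, hVne, hVU, not_nonempty_iff_eq_empty.1 h⟩
  obtain ⟨c₀, hc₀V, p, hp, h⟩ := hne
  obtain ⟨Φ, hΦ⟩ := spreads p hp (fun k => (h k).1) (fun k => (h k).2)
  obtain ⟨δ, hδ, hb⟩ := Metric.eventually_nhds_iff_ball.1 (hΦ.and (hVo.mem_nhds hc₀V))
  refine ⟨c₀, hVU hc₀V, δ, M, Φ, hδ, fun k s hs => ((hb s hs).1.1 k).1,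
    fun k s hs => ⟨((hb s hs).1.1 k).2.1, ((hb s hs).1.1 k).2.2.1⟩, ?_⟩
  intro z hz hzi
  by_contra hcon
  push Not at hcon
  have hW : {q : Fin n → ℂ | q i ∈ ball c₀ δ ∧ ∀ k, q ≠ Φ k (q i)} ∈ 𝓝 z := by
    have e1 : ∀ᶠ q : Fin n → ℂ in 𝓝 z, q i ∈ ball c₀ δ :=
      (isOpen_ball.preimage (continuous_apply i)).mem_nhds hzi
    have e2 : ∀ᶠ q : Fin n → ℂ in 𝓝 z, ∀ k, q ≠ Φ k (q i) := by
      rw [eventually_all]
      intro k
      have hc : ContinuousAt (fun q : Fin n → ℂ => Φ k (q i)) z := by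
        have : ContinuousAt (Φ k) (z i) := ((hb _ hzi).1.1 k).1.continuousAt
        exact ContinuousAt.comp (f := fun q : Fin n → ℂ => q i) this (continuous_apply i).continuousAt
      exact (continuousAt_id.ne_iff_eventually_ne hc).1 (hcon k)
    exact e1.and e2
  obtain ⟨q, ⟨hq1, hq2⟩, hq3⟩ := F2 hT hU hacc hz (hVU (hb _ hzi).2) hW
  have : q i ∈ V ∩ S (Nat.find hex) := by
    refine ⟨(hb _ hq1).2, ?_⟩
    rw [hM]
    refine ⟨Fin.cons q fun k => Φ k (q i), ?_, ?_⟩
    · rw [Fin.cons_injective_iff]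
      refine ⟨?_, (hb _ hq1).1.2⟩
      rintro ⟨k, hk⟩
      exact hq2 k hk.symm
    · intro k
      refine Fin.cases ?_ (fun k => ?_) k
      · exact ⟨rfl, hq3⟩
      · simp only [Fin.cons_succ]
        exact ⟨((hb _ hq1).1.1 k).2.1, ((hb _ hq1).1.1 k).2.2.2⟩
  rw [hVS] at this
  exact this

end Pool.Agent.J4H45.K1
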